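import Mathlib

/-!
# MP_6a60a4_co: the bound `C_M(V) ≤ (t+k+1 choose k+1)` fails for general matroids

We work with dimension vectors, flats, restrictions and `C_M(V)` as in the problem file and
give a simple rank-3 matroid on 56 elements (the dual affine plane of order 7 with a Fano plane
put on each of its eight groups) that is not a union of nine flats of rank at most 2, while
each of its proper restrictions is.  As `56 > 55 = (9+1+1 choose 1+1)`, this refutes the bound
with `t = 9`, `k = 1` and `V = {(1,1,1,1,1,1,1,1,1)}`.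
-/

namespace Pool.Agent.Results.MP_6a60a4_co.FanoDualAffine

open Set
open scoped Matroid

/-! ### The notions of the problem file -/

/-- A dimension vector: a nonincreasing list of natural numbers. -/
def IsDimVec (v : List ℕ) : Prop := v.Pairwise (fun a b => b ≤ a)

/-- A matroid is simple if it has no loops and no parallel pairs. -/
def IsSimple {α : Type} (M : Matroid α) : Prop := ∀ e ∈ M.E, ∀ f ∈ M.E, M.Indep {e, f}

/-- `M` is covered by the dimension vector `v = (v₁, …, v_t)`: there are flats `L₁, …, L_t` with
`r(L_i) ≤ v_i + 1` whose union is the ground set. -/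
def CoveredByVec {α : Type} (M : Matroid α) (v : List ℕ) : Prop :=
  ∃ L : Fin v.length → Set α,
    (∀ i, M.IsFlat (L i) ∧ M.eRk (L i) ≤ (v.get i : ℕ∞) + 1) ∧ (⋃ i, L i) = M.E

/-- `M` is covered by the set `V` of dimension vectors. -/
def CoveredBy {α : Type} (M : Matroid α) (V : Set (List ℕ)) : Prop := ∃ v ∈ V, CoveredByVec M v

/-- The property of `N` in the definition of `C_M(V)`: whenever `M` is a simple (finite) matroid
and `M|X` is covered by `V` for every `X` with `|X| ≤ N`, the matroid `M` is covered by `V`. -/
def IsThreshold (V : Set (List ℕ)) (N : ℕ) : Prop :=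
  ∀ (α : Type) (M : Matroid α), M.E.Finite → IsSimple M →
    (∀ X ⊆ M.E, X.ncard ≤ N → CoveredBy (M ↾ X) V) → CoveredBy M V

/-- `C_M(V)`, the least `N` with this property (`⊤` if there is none). -/
noncomputable def CM (V : Set (List ℕ)) : ℕ∞ := ⨅ (N : ℕ) (_ : IsThreshold V N), (N : ℕ∞)

/-! ### The 56-point linear space -/

/-- Groups: the eight directions of the affine plane over `ZMod 7`. -/
abbrev Gr := Option (ZMod 7)

/-- The 56 points. -/
abbrev Pt := Gr × ZMod 7

/-- The 49 blocks are indexed by the points of the affine plane. -/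
abbrev AP := ZMod 7 × ZMod 7

/-- Index type of the 49 + 56 lines. -/
abbrev Ix := AP ⊕ Pt

/-- The point in which the block `P` meets the group `g`. -/
def proj : Gr → AP → ZMod 7
  | none, P => P.1
  | some m, P => P.2 - m * P.1

/-- Membership of points in lines. -/
def Inc (p : Pt) : Ix → Prop
  | Sum.inl P => proj p.1 P = p.2
  | Sum.inr q => p.1 = q.1 ∧ (p.2 = q.2 ∨ p.2 = q.2 + 1 ∨ p.2 = q.2 + 3)

/-- The lines of the linear space. -/
def line (i : Ix) : Set Pt := {p | Inc p i}

instance : Fact (Nat.Prime 7) := ⟨by norm_num⟩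

theorem block_exists (g g' : Gr) (h : g ≠ g') (i i' : ZMod 7) :
    ∃ P : AP, proj g P = i ∧ proj g' P = i' := by
  cases g with
  | none =>
    cases g' with
    | none => exact absurd rfl h
    | some m => exact ⟨(i, i' + m * i), rfl, by simp [proj]⟩
  | some m =>
    cases g' with
    | none => exact ⟨(i', i + m * i'), by simp [proj], rfl⟩
    | some m' =>
      have hm : m - m' ≠ 0 := by
        intro hc
        exact h (by rw [sub_eq_zero.mp hc])
      refine ⟨((i' - i) / (m - m'), i + m * ((i' - i) / (m - m'))), by simp [proj], ?_⟩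
      simp only [proj]
      field_simp
      ring

theorem block_unique (g g' : Gr) (h : g ≠ g') (P Q : AP) (h1 : proj g P = proj g Q)
    (h2 : proj g' P = proj g' Q) : P = Q := by
  obtain ⟨x, y⟩ := P
  obtain ⟨x', y'⟩ := Q
  cases g with
  | none =>
    cases g' with
    | none => exact absurd rfl h
    | some m =>
      simp only [proj] at h1 h2
      subst h1
      simp only [sub_left_inj] at h2
      rw [h2]
  | some m =>
    cases g' with
    | none =>
      simp only [proj] at h1 h2
      subst h2
      simp only [sub_left_inj] at h1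
      rw [h1]
    | some m' =>
      simp only [proj] at h1 h2
      have hm : m - m' ≠ 0 := by
        intro hc
        exact h (by rw [sub_eq_zero.mp hc])
      have hx : (m - m') * (x - x') = 0 := by linear_combination h2 - h1
      have hx' : x = x' := by
        rcases mul_eq_zero.mp hx with h3 | h3
        · exact absurd h3 hm
        · exact sub_eq_zero.mp h3
      subst hx'
      have hy : y = y' := by linear_combination h1
      rw [hy]

theorem dir_exists (P Q : AP) : ∃ g, proj g P = proj g Q := by
  obtain ⟨x, y⟩ := P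
  obtain ⟨x', y'⟩ := Q
  by_cases hx : x = x'
  · exact ⟨none, by simpa [proj] using hx⟩
  · have hx' : x - x' ≠ 0 := sub_ne_zero.mpr hx
    refine ⟨some ((y - y') / (x - x')), ?_⟩
    simp only [proj]
    field_simp
    ring

theorem fano_exists : ∀ i i' : ZMod 7, ∃ j : ZMod 7,
    (i = j ∨ i = j + 1 ∨ i = j + 3) ∧ (i' = j ∨ i' = j + 1 ∨ i' = j + 3) := by decide

theorem fano_unique : ∀ i i' j j' : ZMod 7, i ≠ i' → (i = j ∨ i = j + 1 ∨ i = j + 3) →
    (i' = j ∨ i' = j + 1 ∨ i' = j + 3) → (i = j' ∨ i = j' + 1 ∨ i = j' + 3) →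
    (i' = j' ∨ i' = j' + 1 ∨ i' = j' + 3) → j = j' := by decide

/-- Any two points lie on a common line. -/
theorem line_exists (a b : Pt) : ∃ i, a ∈ line i ∧ b ∈ line i := by
  obtain ⟨g, i⟩ := a
  obtain ⟨g', i'⟩ := b
  by_cases h : g = g'
  · subst h
    obtain ⟨j, h1, h2⟩ := fano_exists i i'
    exact ⟨Sum.inr (g, j), ⟨rfl, h1⟩, ⟨rfl, h2⟩⟩
  · obtain ⟨P, h1, h2⟩ := block_exists g g' h i i'
    exact ⟨Sum.inl P, h1, h2⟩

/-- Two points lie on at most one common line. -/
theorem line_unique (a b : Pt) (hab : a ≠ b) (i j : Ix) (hai : a ∈ line i) (hbi : b ∈ line i)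
    (haj : a ∈ line j) (hbj : b ∈ line j) : i = j := by
  obtain ⟨g, x⟩ := a
  obtain ⟨g', x'⟩ := b
  by_cases h : g = g'
  · subst h
    have hx : x ≠ x' := fun hc => hab (by rw [hc])
    cases i with
    | inl P =>
      exfalso
      have h1 : proj g P = x := hai
      have h2 : proj g P = x' := hbi
      exact hx (h1.symm.trans h2)
    | inr q =>
      cases j with
      | inl P =>
        exfalso
        have h1 : proj g P = x := haj
        have h2 : proj g P = x' := hbj
        exact hx (h1.symm.trans h2)
      | inr q' =>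
        obtain ⟨k, y⟩ := q
        obtain ⟨k', y'⟩ := q'
        obtain ⟨h1, h2⟩ := hai
        obtain ⟨_, h3⟩ := hbi
        obtain ⟨h4, h5⟩ := haj
        obtain ⟨_, h6⟩ := hbj
        have : y = y' := fano_unique x x' y y' hx h2 h3 h5 h6
        simp only at h1 h4
        rw [← h1, ← h4, this]
  · cases i with
    | inr q =>
      exfalso
      obtain ⟨h1, _⟩ := hai
      obtain ⟨h2, _⟩ := hbi
      exact h (h1.trans h2.symm)
    | inl P =>
      cases j with
      | inr q =>
        exfalso
        obtain ⟨h1, _⟩ := haj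
        obtain ⟨h2, _⟩ := hbj
        exact h (h1.trans h2.symm)
      | inl Q =>
        have h1 : proj g P = x := hai
        have h2 : proj g' P = x' := hbi
        have h3 : proj g Q = x := haj
        have h4 : proj g' Q = x' := hbj
        rw [block_unique g g' h P Q (h1.trans h3.symm) (h2.trans h4.symm)]

/-! ### Nine lines never cover -/

open Finset in
/-- Number of ordered pairs of distinct elements of `A` with equal value, against the number of
values. -/
theorem pairs_le {β γ : Type} [DecidableEq β] [DecidableEq γ] (h : β → γ) (A : Finset β) :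
    (A.offDiag.filter (fun z => h z.1 = h z.2)).card ≤
      (A.card - (A.image h).card) * (A.card - (A.image h).card + 1) := by
  classical
  induction A using Finset.induction_on with
  | empty => simp
  | insert x A hx ih =>
    set N := A.filter (fun y => h y = h x) with hN
    have hsub : (insert x A).offDiag.filter (fun z => h z.1 = h z.2) ⊆
        (A.offDiag.filter (fun z => h z.1 = h z.2)) ∪ (N.image (fun y => (x, y)) ∪
          N.image (fun y => (y, x))) := by
      intro z hz
      obtain ⟨z1, z2⟩ := z
      simp only [Finset.mem_filter, Finset.mem_offDiag, Finset.mem_insert, ne_eq] at hz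
      obtain ⟨⟨h1, h2, h3⟩, h4⟩ := hz
      simp only [Finset.mem_union, Finset.mem_filter, Finset.mem_offDiag, Finset.mem_image, hN,
        Prod.mk.injEq]
      rcases h1 with h1 | h1
      · rcases h2 with h2 | h2
        · exact absurd (h1.trans h2.symm) h3
        · right; left
          exact ⟨z2, ⟨h2, by rw [← h4, h1]⟩, h1.symm, rfl⟩
      · rcases h2 with h2 | h2
        · right; right
          exact ⟨z1, ⟨h1, by rw [h4, h2]⟩, rfl, h2.symm⟩
        · left
          exact ⟨⟨h1, h2, h3⟩, h4⟩
    have hc1 : ((insert x A).offDiag.filter (fun z => h z.1 = h z.2)).card ≤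
        (A.offDiag.filter (fun z => h z.1 = h z.2)).card + 2 * N.card := by
      refine (Finset.card_le_card hsub).trans ?_
      refine (Finset.card_union_le _ _).trans ?_
      have := Finset.card_union_le (N.image (fun y => (x, y))) (N.image (fun y => (y, x)))
      have h1 := Finset.card_image_le (s := N) (f := fun y => (x, y))
      have h2 := Finset.card_image_le (s := N) (f := fun y => (y, x))
      omega
    have hcA : (insert x A).card = A.card + 1 := Finset.card_insert_of_notMem hx
    have hdA : (A.image h).card ≤ A.card := Finset.card_image_le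
    rw [Finset.image_insert]
    by_cases hxA : h x ∈ A.image h
    · rw [Finset.insert_eq_of_mem hxA, hcA]
      have hNc : N.card + (A.image h).card ≤ A.card + 1 := by
        have h1 : (A.image h).card ≤ ((A \ N).image h).card + 1 := by
          have : A.image h ⊆ insert (h x) ((A \ N).image h) := by
            intro y hy
            obtain ⟨w, hw, rfl⟩ := Finset.mem_image.mp hy
            by_cases hwx : h w = h x
            · rw [hwx]; exact Finset.mem_insert_self _ _
            · refine Finset.mem_insert_of_mem (Finset.mem_image.mpr ⟨w, ?_, rfl⟩)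
              simp [hN, hw, hwx]
          exact (Finset.card_le_card this).trans (Finset.card_insert_le _ _)
        have h2 : ((A \ N).image h).card ≤ (A \ N).card := Finset.card_image_le
        have h3 : (A \ N).card + N.card = A.card :=
          Finset.card_sdiff_add_card_eq_card (Finset.filter_subset _ _)
        omega
      have e1 : A.card + 1 - (A.image h).card = (A.card - (A.image h).card) + 1 := by omega
      rw [e1]
      have e2 : N.card ≤ (A.card - (A.image h).card) + 1 := by omega
      nlinarith
    · have hN0 : N = ∅ := by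
        rw [hN, Finset.filter_eq_empty_iff]
        intro y hy hyx
        exact hxA (Finset.mem_image.mpr ⟨y, hy, hyx⟩)
      rw [hN0, Finset.card_empty] at hc1
      rw [Finset.card_insert_of_notMem hxA, hcA]
      have e1 : A.card + 1 - ((A.image h).card + 1) = A.card - (A.image h).card := by omega
      rw [e1]
      omega

/-- The points covered by the Fano lines with indices in `F`. -/
def cov (F : Finset (ZMod 7)) : Finset (ZMod 7) :=
  Finset.univ.filter (fun i => ∃ j ∈ F, (i = j ∨ i = j + 1 ∨ i = j + 3))

theorem cov_le : ∀ F : Finset (ZMod 7),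
    (cov F).card ≤ 3 * F.card ∧ (F.card = 2 → (cov F).card ≤ 5) ∧ (cov F).card ≤ 7 := by
  decide +kernel

/-- The 56 points are not covered by nine lines. -/
theorem no_cover (f : Fin 9 → Ix) : ∃ p, ∀ i, p ∉ line (f i) := by
  classical
  by_contra hcon
  push Not at hcon
  set S : Finset Ix := Finset.univ.image f with hS
  have hScard : S.card ≤ 9 := by
    have := Finset.card_image_le (s := (Finset.univ : Finset (Fin 9))) (f := f)
    simpa using this
  set A : Finset AP := S.toLeft with hA
  set B : Finset Pt := S.toRight with hB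
  have hAB : A.card + B.card = S.card := Finset.card_toLeft_add_card_toRight
  set F : Gr → Finset (ZMod 7) := fun g => (B.filter (fun q => q.1 = g)).image Prod.snd with hF
  have hFc : ∀ g, (F g).card = (B.filter (fun q => q.1 = g)).card := by
    intro g
    refine Finset.card_image_of_injOn ?_
    intro a ha b hb hab
    have h1 : a.1 = g := (Finset.mem_filter.mp (Finset.mem_coe.mp ha)).2
    have h2 : b.1 = g := (Finset.mem_filter.mp (Finset.mem_coe.mp hb)).2
    exact Prod.ext (h1.trans h2.symm) hab
  have hBsum : B.card = ∑ g : Gr, (F g).card := by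
    rw [Finset.card_eq_sum_card_fiberwise (f := Prod.fst) (t := (Finset.univ : Finset Gr))
      (fun x _ => Finset.mem_coe.mpr (Finset.mem_univ _))]
    exact Finset.sum_congr rfl (fun g _ => (hFc g).symm)
  have hcovers : ∀ g, (Finset.univ : Finset (ZMod 7)) ⊆ (A.image (proj g)) ∪ cov (F g) := by
    intro g x _
    obtain ⟨i, hi⟩ := hcon (g, x)
    have hfi : f i ∈ S := Finset.mem_image_of_mem f (Finset.mem_univ i)
    rw [Finset.mem_union]
    cases hfi' : f i with
    | inl P =>
      left
      rw [hfi'] at hi hfi
      exact Finset.mem_image.mpr ⟨P, Finset.mem_toLeft.mpr hfi, hi⟩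
    | inr q =>
      right
      rw [hfi'] at hi hfi
      obtain ⟨h1, h2⟩ := hi
      refine Finset.mem_filter.mpr ⟨Finset.mem_univ _, q.2, ?_, h2⟩
      exact Finset.mem_image.mpr ⟨q, Finset.mem_filter.mpr ⟨Finset.mem_toRight.mpr hfi, h1.symm⟩, rfl⟩
  have hcard7 : ∀ g, 7 ≤ (A.image (proj g)).card + (cov (F g)).card := by
    intro g
    have h1 := Finset.card_le_card (hcovers g)
    have h2 := Finset.card_union_le (A.image (proj g)) (cov (F g))
    have h3 : (Finset.univ : Finset (ZMod 7)).card = 7 := by simp
    omega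
  have hdA : ∀ g, (A.image (proj g)).card ≤ A.card := fun g => Finset.card_image_le
  -- pairs of blocks
  have hpairs : A.card * A.card - A.card ≤
      ∑ g : Gr, (A.offDiag.filter (fun z => proj g z.1 = proj g z.2)).card := by
    rw [← Finset.offDiag_card]
    have : A.offDiag ⊆ (Finset.univ : Finset Gr).biUnion
        (fun g => A.offDiag.filter (fun z => proj g z.1 = proj g z.2)) := by
      intro z hz
      obtain ⟨g, hg⟩ := dir_exists z.1 z.2
      exact Finset.mem_biUnion.mpr ⟨g, Finset.mem_univ _, Finset.mem_filter.mpr ⟨hz, hg⟩⟩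
    exact (Finset.card_le_card this).trans Finset.card_biUnion_le
  have hTg : ∀ g, (A.offDiag.filter (fun z => proj g z.1 = proj g z.2)).card ≤
      (A.card - (A.image (proj g)).card) * (A.card - (A.image (proj g)).card + 1) :=
    fun g => pairs_le (proj g) A
  have hcardG : (Finset.univ : Finset Gr).card = 8 := by
    simp [Finset.card_univ, Fintype.card_option]
  -- every group needs a Fano line when there are few blocks
  have hbig : 7 ≤ A.card := by
    by_contra hlt
    push Not at hlt
    have hf1 : ∀ g, 1 ≤ (F g).card := by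
      intro g
      have h1 := hcard7 g
      have h2 := hdA g
      have h3 := (cov_le (F g)).1
      omega
    have hs1 : 8 ≤ ∑ g : Gr, (F g).card := by
      have := Finset.sum_le_sum (fun g (_ : g ∈ (Finset.univ : Finset Gr)) => hf1 g)
      simpa [hcardG] using this
    have hf2 : ∀ g, 2 ≤ (F g).card := by
      intro g
      have h1 := hcard7 g
      have h2 := hdA g
      have h3 := (cov_le (F g)).1
      omega
    have hs2 : 8 * 2 ≤ ∑ g : Gr, (F g).card := by
      have := Finset.sum_le_sum (fun g (_ : g ∈ (Finset.univ : Finset Gr)) => hf2 g)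
      simpa [hcardG] using this
    omega
  have hsumF : A.card + ∑ g : Gr, (F g).card ≤ 9 := by omega
  have hle : A.card ≤ 9 := by omega
  have hFle : ∀ g, (F g).card ≤ 9 - A.card := by
    intro g
    have := Finset.single_le_sum (f := fun g => (F g).card) (fun _ _ => Nat.zero_le _)
      (Finset.mem_univ g)
    omega
  obtain ⟨a, ha⟩ : ∃ a, a = A.card := ⟨_, rfl⟩
  rw [← ha] at hpairs hTg hbig hle hFle hsumF hdA
  interval_cases a
  · -- seven blocks
    have hT : ∀ g, (A.offDiag.filter (fun z => proj g z.1 = proj g z.2)).card ≤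
        15 * (F g).card := by
      intro g
      refine (hTg g).trans ?_
      have h1 := hcard7 g
      have h2 := hdA g
      obtain ⟨h3, h4, h5⟩ := cov_le (F g)
      have h6 := hFle g
      obtain ⟨φ, hφ⟩ : ∃ φ, φ = (F g).card := ⟨_, rfl⟩
      rw [← hφ] at h3 h4 h6 ⊢
      interval_cases φ
      · have : 7 - (A.image (proj g)).card = 0 := by omega
        rw [this]
      · have : 7 - (A.image (proj g)).card ≤ 3 := by omega
        calc _ ≤ 3 * (3 + 1) := Nat.mul_le_mul this (by omega)
          _ ≤ _ := by norm_num
      · have h7 := h4 rfl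
        have : 7 - (A.image (proj g)).card ≤ 5 := by omega
        calc _ ≤ 5 * (5 + 1) := Nat.mul_le_mul this (by omega)
          _ ≤ _ := by norm_num
    have hsum := Finset.sum_le_sum (fun g (_ : g ∈ (Finset.univ : Finset Gr)) => hT g)
    rw [← Finset.mul_sum] at hsum
    omega
  · -- eight blocks
    have hT : ∀ g, (A.offDiag.filter (fun z => proj g z.1 = proj g z.2)).card ≤
        2 + 18 * (F g).card := by
      intro g
      refine (hTg g).trans ?_
      have h1 := hcard7 g
      have h2 := hdA g
      obtain ⟨h3, h4, h5⟩ := cov_le (F g)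
      have h6 := hFle g
      obtain ⟨φ, hφ⟩ : ∃ φ, φ = (F g).card := ⟨_, rfl⟩
      rw [← hφ] at h3 h4 h6 ⊢
      interval_cases φ
      · have : 8 - (A.image (proj g)).card ≤ 1 := by omega
        calc _ ≤ 1 * (1 + 1) := Nat.mul_le_mul this (by omega)
          _ ≤ _ := by norm_num
      · have : 8 - (A.image (proj g)).card ≤ 4 := by omega
        calc _ ≤ 4 * (4 + 1) := Nat.mul_le_mul this (by omega)
          _ ≤ _ := by norm_num
    have hsum := Finset.sum_le_sum (fun g (_ : g ∈ (Finset.univ : Finset Gr)) => hT g)
    rw [Finset.sum_add_distrib, ← Finset.mul_sum, Finset.sum_const, hcardG] at hsum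
    simp only [smul_eq_mul] at hsum
    omega
  · -- nine blocks
    have hT : ∀ g, (A.offDiag.filter (fun z => proj g z.1 = proj g z.2)).card ≤ 6 := by
      intro g
      refine (hTg g).trans ?_
      have h1 := hcard7 g
      have h2 := hdA g
      obtain ⟨h3, h4, h5⟩ := cov_le (F g)
      have h6 := hFle g
      have : 9 - (A.image (proj g)).card ≤ 2 := by omega
      calc _ ≤ 2 * (2 + 1) := Nat.mul_le_mul this (by omega)
        _ ≤ _ := by norm_num
    have hsum := Finset.sum_le_sum (fun g (_ : g ∈ (Finset.univ : Finset Gr)) => hT g)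
    rw [Finset.sum_const, hcardG] at hsum
    simp only [smul_eq_mul] at hsum
    omega

/-! ### All but one point are covered by nine lines -/

/-- The nine lines used for all points but `(g, x)`: the seven blocks through `(g, x + 1)` and
two Fano lines. -/
def nine (g : Gr) (x : ZMod 7) : Fin 9 → Ix := fun n =>
  if n.val < 7 then
    match g with
    | none => Sum.inl (x + 1, (n.val : ZMod 7))
    | some m => Sum.inl ((n.val : ZMod 7), x + 1 + m * (n.val : ZMod 7))
  else if n.val = 7 then Sum.inr (g, x + 2) else Sum.inr (g, x + 3)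

theorem fano_two : ∀ x y : ZMod 7, y ≠ x → y ≠ x + 1 →
    ((y = x + 2 ∨ y = x + 2 + 1 ∨ y = x + 2 + 3) ∨ (y = x + 3 ∨ y = x + 3 + 1 ∨ y = x + 3 + 3)) := by
  decide

theorem nine_block (g : Gr) (x : ZMod 7) (P : AP) (hP : proj g P = x + 1) :
    ∃ n, nine g x n = Sum.inl P := by
  obtain ⟨u, v⟩ := P
  cases g with
  | none =>
    simp only [proj] at hP
    refine ⟨⟨v.val, by have := ZMod.val_lt v; omega⟩, ?_⟩
    have hv : v.val < 7 := ZMod.val_lt v
    simp [nine, hv, hP]
  | some m =>
    simp only [proj] at hP
    refine ⟨⟨u.val, by have := ZMod.val_lt u; omega⟩, ?_⟩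
    have hu : u.val < 7 := ZMod.val_lt u
    simp only [nine, hu, if_true, ZMod.natCast_val, ZMod.cast_id', id_eq, Sum.inl.injEq,
      Prod.mk.injEq, true_and]
    linear_combination -hP

theorem nine_cover (p q : Pt) (hqp : q ≠ p) : ∃ n, q ∈ line (nine p.1 p.2 n) := by
  obtain ⟨g, x⟩ := p
  obtain ⟨g', y⟩ := q
  by_cases h : g' = g
  · subst h
    have hyx : y ≠ x := fun hc => hqp (by rw [hc])
    by_cases hy1 : y = x + 1
    · -- the centre of the pencil
      obtain ⟨P, hP1, _⟩ : ∃ P : AP, proj g' P = x + 1 ∧ True := by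
        cases g' with
        | none => exact ⟨(x + 1, 0), rfl, trivial⟩
        | some m => exact ⟨(0, x + 1), by simp [proj], trivial⟩
      obtain ⟨n, hn⟩ := nine_block g' x P hP1
      refine ⟨n, ?_⟩
      simp only
      rw [hn]
      show proj g' P = y
      rw [hP1, hy1]
    · rcases fano_two x y hyx hy1 with h2 | h2
      · refine ⟨⟨7, by norm_num⟩, ?_⟩
        show Inc (g', y) (nine g' x ⟨7, by norm_num⟩)
        simp only [nine, lt_irrefl, if_false, if_true]
        exact ⟨rfl, h2⟩
      · refine ⟨⟨8, by norm_num⟩, ?_⟩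
        show Inc (g', y) (nine g' x ⟨8, by norm_num⟩)
        have : ¬ (8 < 7) := by norm_num
        simp only [nine, this, if_false]
        exact ⟨rfl, h2⟩
  · obtain ⟨P, h1, h2⟩ := block_exists g g' (fun hc => h hc.symm) (x + 1) y
    obtain ⟨n, hn⟩ := nine_block g x P h1
    refine ⟨n, ?_⟩
    simp only
    rw [hn]
    exact h2

/-! ### The matroid of the linear space -/

/-- Independence: at most three elements, and no three on a line. -/
def LIndep (I : Set Pt) : Prop := I.ncard ≤ 3 ∧ ∀ i, (I ∩ line i).ncard ≤ 2

theorem lindep_of_card_le_two {I : Set Pt} (h : I.ncard ≤ 2) : LIndep I :=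
  ⟨by omega, fun i => (Set.ncard_le_ncard Set.inter_subset_left (Set.toFinite I)).trans h⟩

theorem lindep_aug ⦃I J : Set Pt⦄ (hI : LIndep I) (hJ : LIndep J) (hIJ : I.ncard < J.ncard) :
    ∃ e ∈ J, e ∉ I ∧ LIndep (insert e I) := by
  by_cases h1 : I.ncard ≤ 1
  · obtain ⟨e, heJ, heI⟩ := Set.exists_mem_notMem_of_ncard_lt_ncard hIJ
    exact ⟨e, heJ, heI, lindep_of_card_le_two ((Set.ncard_insert_le e I).trans (by omega))⟩
  · have hI2 : I.ncard = 2 := by have := hJ.1; omega
    have hJ3 : J.ncard = 3 := by have := hJ.1; omega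
    obtain ⟨a, b, hab, rfl⟩ := Set.ncard_eq_two.mp hI2
    obtain ⟨ℓ, haℓ, hbℓ⟩ := line_exists a b
    -- some element of `J` is off the line `ℓ`
    have : ∃ e ∈ J, e ∉ line ℓ := by
      by_contra hcon
      push Not at hcon
      have : J ∩ line ℓ = J := Set.inter_eq_left.mpr hcon
      have h2 := hJ.2 ℓ
      rw [this] at h2
      omega
    obtain ⟨e, heJ, heℓ⟩ := this
    have hea : e ≠ a := fun hc => heℓ (hc ▸ haℓ)
    have heb : e ≠ b := fun hc => heℓ (hc ▸ hbℓ)
    refine ⟨e, heJ, by simp [hea, heb], ?_, ?_⟩
    · exact (Set.ncard_insert_le e _).trans (by omega)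
    · intro i
      by_contra hcon
      push Not at hcon
      have hsub : insert e ({a, b} : Set Pt) ∩ line i ⊆ insert e ({a, b} : Set Pt) :=
        Set.inter_subset_left
      have hc3 : (insert e ({a, b} : Set Pt)).ncard ≤ 3 :=
        (Set.ncard_insert_le e _).trans (by omega)
      have heq : insert e ({a, b} : Set Pt) ∩ line i = insert e ({a, b} : Set Pt) :=
        Set.eq_of_subset_of_ncard_le hsub (by omega) (Set.toFinite _)
      have hall := Set.inter_eq_left.mp heq
      have hei : e ∈ line i := hall (by simp)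
      have hai : a ∈ line i := hall (by simp)
      have hbi : b ∈ line i := hall (by simp)
      have := line_unique a b hab i ℓ hai hbi haℓ hbℓ
      exact heℓ (this ▸ hei)

/-- The rank-3 matroid of the linear space. -/
def indepM : IndepMatroid Pt :=
  IndepMatroid.ofFinite (E := (Set.univ : Set Pt)) Set.finite_univ LIndep
    (lindep_of_card_le_two (by simp))
    (fun I J hJ hIJ => ⟨(Set.ncard_le_ncard hIJ (Set.toFinite J)).trans hJ.1, fun i =>
      (Set.ncard_le_ncard (Set.inter_subset_inter_left _ hIJ) (Set.toFinite _)).trans (hJ.2 i)⟩)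
    lindep_aug (fun I _ => Set.subset_univ I)

/-- The counterexample. -/
def M56 : Matroid Pt := indepM.matroid

theorem M56_ground : M56.E = Set.univ := rfl

theorem M56_indep (I : Set Pt) : M56.Indep I ↔ LIndep I := Iff.rfl

theorem M56_simple : IsSimple M56 := by
  intro e _ f _
  refine (M56_indep _).mpr (lindep_of_card_le_two ?_)
  exact (Set.ncard_insert_le e {f}).trans (by simp)

/-- A set of rank at most two is contained in a line. -/
theorem subset_line_of_rank {F : Set Pt} (hF : M56.eRk F ≤ 2) : ∃ i, F ⊆ line i := by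
  by_cases hsub : F.Subsingleton
  · rcases hsub.eq_empty_or_singleton with h | ⟨a, h⟩
    · exact ⟨Sum.inl (0, 0), by simp [h]⟩
    · obtain ⟨i, hi, _⟩ := line_exists a a
      exact ⟨i, by simpa [h] using hi⟩
  · rw [Set.not_subsingleton_iff] at hsub
    obtain ⟨a, ha, b, hb, hab⟩ := hsub
    obtain ⟨ℓ, haℓ, hbℓ⟩ := line_exists a b
    refine ⟨ℓ, fun c hc => ?_⟩
    by_contra hcℓ
    have hca : c ≠ a := fun h => hcℓ (h ▸ haℓ)
    have hcb : c ≠ b := fun h => hcℓ (h ▸ hbℓ)
    have hcard : ({c, a, b} : Set Pt).ncard = 3 := Set.ncard_eq_three.mpr ⟨c, a, b, hca, hcb, hab, rfl⟩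
    have hind : M56.Indep {c, a, b} := by
      refine (M56_indep _).mpr ⟨by omega, fun i => ?_⟩
      by_contra hcon
      push Not at hcon
      have heq : ({c, a, b} : Set Pt) ∩ line i = {c, a, b} :=
        Set.eq_of_subset_of_ncard_le Set.inter_subset_left (by omega) (Set.toFinite _)
      have hall := Set.inter_eq_left.mp heq
      have hci : c ∈ line i := hall (by simp)
      have hai : a ∈ line i := hall (by simp)
      have hbi : b ∈ line i := hall (by simp)
      have := line_unique a b hab i ℓ hai hbi haℓ hbℓ
      exact hcℓ (this ▸ hci)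
    have hle := (Matroid.eRk_le_iff.mp hF) (by
      intro z hz
      simp only [Set.mem_insert_iff, Set.mem_singleton_iff] at hz
      rcases hz with rfl | rfl | rfl
      · exact hc
      · exact ha
      · exact hb) hind
    rw [← (Set.toFinite ({c, a, b} : Set Pt)).cast_ncard_eq, hcard] at hle
    exact absurd hle (by norm_num)

/-- Part of a line has rank at most two in every restriction. -/
theorem rank_line (X : Set Pt) (i : Ix) : (M56 ↾ X).eRk (line i ∩ X) ≤ 2 := by
  refine Matroid.eRk_le_iff.mpr (fun I hI hind => ?_)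
  have h1 : M56.Indep I := (Matroid.restrict_indep_iff.mp hind).1
  have h2 := ((M56_indep I).mp h1).2 i
  have h3 : I ∩ line i = I := Set.inter_eq_left.mpr (fun z hz => (hI hz).1)
  rw [h3] at h2
  rw [← (Set.toFinite I).cast_ncard_eq]
  exact_mod_cast h2

/-- The dimension vector `(1,1,1,1,1,1,1,1,1)`. -/
abbrev nineOnes : List ℕ := List.replicate 9 1

theorem nineOnes_get (i : Fin nineOnes.length) : nineOnes.get i = 1 :=
  List.getElem_replicate i.isLt

theorem not_covered : ¬ CoveredBy M56 {nineOnes} := by
  rintro ⟨v, hv, L, hL, hU⟩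
  rw [Set.mem_singleton_iff] at hv
  subst hv
  have hlen : nineOnes.length = 9 := by simp
  have hget : ∀ i : Fin nineOnes.length, nineOnes.get i = 1 := nineOnes_get
  have hex : ∀ i : Fin nineOnes.length, ∃ j, L i ⊆ line j := by
    intro i
    refine subset_line_of_rank ?_
    have := (hL i).2
    rw [hget i] at this
    exact this.trans (by norm_num)
  choose j hj using hex
  obtain ⟨p, hp⟩ := no_cover (fun i => j (Fin.cast hlen.symm i))
  have hpE : p ∈ ⋃ i, L i := by
    rw [hU]
    exact Set.mem_univ p
  obtain ⟨i, hi⟩ := Set.mem_iUnion.mp hpE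
  exact hp (Fin.cast hlen i) (by simpa using hj i hi)

theorem covered_restrict (X : Set Pt) (hX : X ≠ Set.univ) : CoveredBy (M56 ↾ X) {nineOnes} := by
  obtain ⟨p, hp⟩ := (Set.ne_univ_iff_exists_notMem X).mp hX
  have hlen : nineOnes.length = 9 := by simp
  refine ⟨nineOnes, rfl, fun i => (M56 ↾ X).closure (line (nine p.1 p.2 (Fin.cast hlen i)) ∩ X),
    fun i => ⟨Matroid.isFlat_closure _, ?_⟩, ?_⟩
  · rw [Matroid.eRk_closure_eq]
    rw [nineOnes_get i]
    refine (rank_line X _).trans ?_
    norm_num
  · apply Set.Subset.antisymm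
    · exact Set.iUnion_subset (fun i => Matroid.closure_subset_ground _ _)
    · intro q hq
      have hqX : q ∈ X := hq
      obtain ⟨n, hn⟩ := nine_cover p q (fun hc => hp (hc ▸ hqX))
      refine Set.mem_iUnion.mpr ⟨Fin.cast hlen.symm n, ?_⟩
      refine (Matroid.subset_closure (M56 ↾ X) _ (fun z hz => hz.2)) ⟨?_, hqX⟩
      simpa using hn

theorem M56_rank : M56.eRank = 3 := by
  apply le_antisymm
  · rw [Matroid.eRank_def]
    refine Matroid.eRk_le_iff.mpr (fun I _ hind => ?_)
    have h2 := ((M56_indep I).mp hind).1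
    rw [← (Set.toFinite I).cast_ncard_eq]
    exact_mod_cast h2
  · by_contra hlt
    push Not at hlt
    have hle : M56.eRk Set.univ ≤ 2 := by
      rw [Matroid.eRk_univ_eq]
      refine Order.le_of_lt_add_one (lt_of_lt_of_eq hlt ?_)
      norm_num
    obtain ⟨i, hi⟩ := subset_line_of_rank hle
    obtain ⟨p, hp⟩ := no_cover (fun _ => i)
    exact hp 0 (hi (Set.mem_univ p))

theorem card_Pt : (Set.univ : Set Pt).ncard = 56 := by
  rw [Set.ncard_univ, Nat.card_eq_fintype_card]
  simp [Fintype.card_option, ZMod.card]

theorem isThreshold_ge (N : ℕ) (h : IsThreshold {nineOnes} N) : 56 ≤ N := by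
  by_contra hlt
  push Not at hlt
  refine not_covered (h Pt M56 (Set.toFinite _) M56_simple
    (fun X _ hX => covered_restrict X ?_))
  intro hc
  rw [hc, card_Pt] at hX
  omega

theorem CM_ge : (56 : ℕ∞) ≤ CM {nineOnes} := by
  refine le_iInf (fun N => le_iInf (fun hN => ?_))
  exact_mod_cast isThreshold_ge N hN

/-- **Main theorem.** The bound `C_M(V) ≤ (t+k+1 choose k+1)` of Q1 is false. It fails for
`t = 9`, `k = 1` and `V = {(1,1,1,1,1,1,1,1,1)}`, where the right-hand side is 55: there is a simple
rank-3 matroid on 56 elements which is not covered by `V`, while all of its proper restrictions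
are covered by `V`. -/
theorem result :
    (∃ M : Matroid (Option (ZMod 7) × ZMod 7), IsSimple M ∧ M.E.ncard = 56 ∧ M.eRank = 3 ∧
      (∀ X ⊆ M.E, X ≠ M.E → CoveredBy (M ↾ X) {List.replicate 9 1}) ∧
      ¬ CoveredBy M {List.replicate 9 1}) ∧
    ¬ ∀ (t k : ℕ) (V : Set (List ℕ)), 1 ≤ t → (∀ v ∈ V, IsDimVec v ∧ v.length ≤ t) →
        IsGreatest {x | ∃ v ∈ V, x ∈ v} k →
        CM V ≤ ((Nat.choose (t + k + 1) (k + 1) : ℕ) : ℕ∞) := by
  refine ⟨⟨M56, M56_simple, card_Pt, M56_rank, fun X _ hX => covered_restrict X hX, not_covered⟩,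
    ?_⟩
  intro hall
  have h := hall 9 1 {nineOnes} (by norm_num) ?_ ?_
  · have h2 := CM_ge.trans h
    have h3 : Nat.choose (9 + 1 + 1) (1 + 1) = 55 := by decide
    rw [h3] at h2
    exact absurd h2 (by norm_num)
  · rintro v hv
    rw [Set.mem_singleton_iff] at hv
    subst hv
    exact ⟨by simp [IsDimVec, List.pairwise_replicate], by simp⟩
  · constructor
    · exact ⟨nineOnes, rfl, by simp [List.mem_replicate]⟩
    · rintro x ⟨v, hv, hx⟩
      rw [Set.mem_singleton_iff] at hv
      subst hv
      exact le_of_eq (List.eq_of_mem_replicate hx)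

end Pool.Agent.Results.MP_6a60a4_co.FanoDualAffine
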